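import Mathlib

open MeasureTheory Set UnitAddTorus
open scoped ComplexConjugate

namespace Pool.Agent.H.MP_288ee9_an

abbrev X := EuclideanSpace ℝ (Fin 2)

noncomputable def ch (x b : X) : ℂ :=
  Complex.exp (-2 * (Real.pi : ℂ) * Complex.I * ((inner ℝ x b : ℝ) : ℂ))

noncomputable def w (t : ℝ) : ℂ := Complex.exp (-2 * (Real.pi : ℂ) * Complex.I * (t : ℂ))

lemma ch_eq (x b : X) : ch x b = w (x 0 * b 0 + x 1 * b 1) := by
  simp only [ch, w, PiLp.inner_apply, Fin.sum_univ_two, RCLike.inner_apply, conj_trivial]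
  congr 3; ring

lemma w_add (s t : ℝ) : w (s + t) = w s * w t := by
  simp only [w, ← Complex.exp_add]; push_cast; ring_nf

lemma w_ne (t : ℝ) : w t ≠ 0 := Complex.exp_ne_zero _

lemma w_zero : w 0 = 1 := by simp [w]

lemma w_conj (t : ℝ) : conj (w t) = w (-t) := by
  simp only [w, ← Complex.exp_conj, map_mul, Complex.conj_ofReal, Complex.conj_I, map_neg,
    map_ofNat]
  push_cast; ring_nf

lemma w_int (n : ℤ) : w n = 1 := by
  have := Complex.exp_int_mul_two_pi_mul_I (-n)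
  rw [w, ← this]; push_cast; ring_nf

lemma w_half : w (1 / 2) = -1 := by
  rw [w, ← Complex.exp_neg_pi_mul_I]; push_cast; ring_nf

lemma w_norm (t : ℝ) : ‖w t‖ = 1 := by
  have : w t = Complex.exp ((-2 * Real.pi * t : ℝ) * Complex.I) := by
    rw [w]; push_cast; ring_nf
  rw [this, Complex.norm_exp_ofReal_mul_I]

lemma ch_addl (x y b : X) : ch (x + y) b = ch x b * ch y b := by
  simp only [ch_eq, ← w_add, PiLp.add_apply]; ring_nf

lemma ch_addr (x b b' : X) : ch x (b + b') = ch x b * ch x b' := by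
  simp only [ch_eq, ← w_add, PiLp.add_apply]; ring_nf

lemma ch_conj (x b : X) : conj (ch x b) = ch x (-b) := by
  simp only [ch_eq, w_conj, PiLp.neg_apply]; ring_nf

lemma ch_sub (x b b' : X) : ch x b * conj (ch x b') = ch x (b - b') := by
  rw [ch_conj, ← ch_addr, sub_eq_add_neg]

lemma ch_norm (x b : X) : ‖ch x b‖ = 1 := by rw [ch_eq, w_norm]

lemma ch_ne (x b : X) : ch x b ≠ 0 := by rw [ch_eq]; exact w_ne _

lemma ch_zero (x : X) : ch x 0 = 1 := by simp [ch]

lemma ch_cont (b : X) : Continuous fun x => ch x b := by unfold ch; fun_prop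

noncomputable def vec (c : ℤ × ℤ) : X := WithLp.toLp 2 ![(c.1 : ℝ), (c.2 : ℝ)]

@[simp] lemma vec0 (c : ℤ × ℤ) : vec c 0 = c.1 := rfl
@[simp] lemma vec1 (c : ℤ × ℤ) : vec c 1 = c.2 := rfl

lemma vec_add (c d : ℤ × ℤ) : vec (c + d) = vec c + vec d := by
  ext i; fin_cases i <;> simp

lemma vec_sub (c d : ℤ × ℤ) : vec (c - d) = vec c - vec d := by
  ext i; fin_cases i <;> simp

lemma ch_vec (c n : ℤ × ℤ) : ch (vec c) (vec n) = 1 := by
  rw [ch_eq, ← w_int (c.1 * n.1 + c.2 * n.2)]; simp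

noncomputable def cl (x : X) : ℤ × ℤ := (⌈x 0⌉ - 1, ⌈x 1⌉ - 1)

lemma cl_add (x : X) (c : ℤ × ℤ) : cl (x + vec c) = cl x + c := by
  simp only [cl, PiLp.add_apply, vec0, vec1, Int.ceil_add_intCast]
  ext <;> simp <;> ring

lemma cl_sub (x : X) (c : ℤ × ℤ) : cl (x - vec c) = cl x - c := by
  rw [eq_sub_iff_add_eq, ← cl_add, sub_add_cancel]

lemma cl_meas : Measurable cl := by
  unfold cl
  refine Measurable.prodMk (Measurable.sub_const (Measurable.ceil ?_) _)
    (Measurable.sub_const (Measurable.ceil ?_) _) <;> fun_prop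

lemma cl_ms (C : Set (ℤ × ℤ)) : MeasurableSet (cl ⁻¹' C) := cl_meas MeasurableSet.of_discrete

def Q : Set X := cl ⁻¹' {0}

lemma Q_ms : MeasurableSet Q := cl_ms _

lemma Q_pre : (WithLp.toLp 2) ⁻¹' Q = {x : Fin 2 → ℝ | ∀ i, x i ∈ Ioc ((fun _ => (0:ℝ)) i)
    ((fun _ => (0:ℝ)) i + 1)} := by
  ext x
  simp only [Q, cl, mem_preimage, mem_singleton_iff, Prod.mk_eq_zero, sub_eq_zero,
    Int.ceil_eq_iff, mem_setOf_eq, Fin.forall_fin_two, mem_Ioc]
  norm_num

noncomputable def τ : Measure (UnitAddTorus (Fin 2)) := Measure.pi fun _ => AddCircle.haarAddCircle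

instance : IsProbabilityMeasure τ := by unfold τ; infer_instance

noncomputable def ρ (t : UnitAddTorus (Fin 2)) : X :=
  WithLp.toLp 2 (measurableEquivPiIoc (fun _ => (0:ℝ)) t).1

lemma hsI : MeasurableSet {x : Fin 2 → ℝ | ∀ i, x i ∈ Ioc ((fun _ => (0:ℝ)) i)
    ((fun _ => (0:ℝ)) i + 1)} := MeasurableSet.univ_pi' (fun _ => measurableSet_Ioc)

lemma ρ_mp : MeasurePreserving ρ τ (volume.restrict Q) := by
  have h1 := measurePreserving_equivPiIoc (d := Fin 2) (fun _ => (0:ℝ))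
  have h2 := measurePreserving_subtype_coe (μa := (volume : Measure (Fin 2 → ℝ))) hsI
  have h3 := (PiLp.volume_preserving_toLp (Fin 2)).restrict_preimage Q_ms
  rw [Q_pre] at h3
  exact h3.comp (h2.comp h1)

lemma ρ_emb : MeasurableEmbedding ρ :=
  (MeasurableEquiv.toLp 2 _).measurableEmbedding.comp ((MeasurableEmbedding.subtype_coe hsI).comp
    (measurableEquivPiIoc (fun _ => (0:ℝ))).measurableEmbedding)

lemma ρ_four (n : Fin 2 → ℤ) (t : UnitAddTorus (Fin 2)) :
    mFourier (-n) t = ch (ρ t) (vec (n 0, n 1)) := by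
  have e : t = fun i => ((ρ t i : ℝ) : UnitAddCircle) :=
    ((measurableEquivPiIoc (fun _ => (0:ℝ))).symm_apply_apply t).symm
  conv_lhs => rw [e]
  simp only [mFourier, ContinuousMap.coe_mk, Fin.prod_univ_two, fourier_coe_apply, ch_eq, w,
    ← Complex.exp_add, vec0, vec1, Pi.neg_apply]
  push_cast; ring_nf

lemma vol_Q : volume Q = 1 := by
  have := ρ_mp.measure_preimage (s := univ) MeasurableSet.univ.nullMeasurableSet
  simpa using this.symm

instance : IsFiniteMeasure (volume.restrict Q) := ⟨by simp [vol_Q]⟩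

noncomputable def qh (b : X) : ℂ := ∫ u in Q, ch u b

lemma qh_zero : qh 0 = 1 := by simp [qh, ch_zero, Measure.real, vol_Q]

lemma qh_vec (n : ℤ × ℤ) (hn : n ≠ 0) : qh (vec n) = 0 := by
  have h := orthonormal_iff_ite.1 (orthonormal_mFourier (d := Fin 2)) ![n.1, n.2] 0
  rw [if_neg (fun e => hn (Prod.ext (congrFun e 0) (congrFun e 1)))] at h
  simp only [ContinuousMap.inner_toLp, ← mFourier_neg, mFourier_zero, ContinuousMap.one_apply,
    one_mul] at h
  rw [qh, ← ρ_mp.integral_comp ρ_emb, ← h]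
  apply integral_congr_ae
  filter_upwards with t
  rw [ρ_four]; rfl

lemma compl_Q (G : X → ℂ) (hG : MemLp G 2 (volume.restrict Q))
    (h : ∀ n : ℤ × ℤ, ∫ u in Q, G u * ch u (vec n) = 0) : ∀ᵐ u ∂(volume.restrict Q), G u = 0 := by
  have h1 : MemLp (G ∘ ρ) 2 τ := hG.comp_measurePreserving ρ_mp
  let b : HilbertBasis (Fin 2 → ℤ) ℂ (Lp ℂ 2 τ) := mFourierBasis
  have h2 : b.repr (h1.toLp _) = 0 := by
    ext n
    have : b.repr (h1.toLp _) n = ∫ t, mFourier (-n) t • (h1.toLp _) t ∂τ := mFourierBasis_repr _ n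
    rw [this]
    have e := h (n 0, n 1)
    rw [← ρ_mp.integral_comp ρ_emb] at e
    refine Eq.trans ?_ e
    apply integral_congr_ae
    filter_upwards [h1.coeFn_toLp] with t ht
    rw [ht, ρ_four, smul_eq_mul, mul_comm]; rfl
  have h3 : h1.toLp _ = 0 := by simpa using h2
  have h4 : ∀ᵐ t ∂τ, G (ρ t) = 0 := by
    filter_upwards [h1.coeFn_toLp, Lp.coeFn_zero ℂ 2 τ] with t a c
    rw [h3, c] at a
    exact a.symm
  rw [← ρ_mp.map_eq, ρ_emb.ae_map_iff]
  exact h4

lemma pre_cell (c : ℤ × ℤ) : (fun x => x + vec c) ⁻¹' (cl ⁻¹' {c}) = Q := by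
  ext x; simp [Q, cl_add]

lemma mp_cell (c : ℤ × ℤ) : MeasurePreserving (fun x : X => x + vec c) (volume.restrict Q)
    (volume.restrict (cl ⁻¹' {c})) := by
  have := (measurePreserving_add_right volume (vec c)).restrict_preimage (cl_ms {c})
  rwa [pre_cell] at this

lemma vol_cell (c : ℤ × ℤ) : volume (cl ⁻¹' {c}) = 1 := by
  have := (mp_cell c).measure_preimage (s := univ) MeasurableSet.univ.nullMeasurableSet
  simpa [vol_Q] using this.symm

lemma pre_fin (C : Finset (ℤ × ℤ)) : cl ⁻¹' (C : Set (ℤ × ℤ)) = ⋃ c ∈ C, cl ⁻¹' {c} := by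
  ext x; simp

lemma vol_fin (C : Finset (ℤ × ℤ)) : volume (cl ⁻¹' (C : Set (ℤ × ℤ))) < ⊤ := by
  rw [pre_fin]
  exact measure_biUnion_lt_top C.finite_toSet fun c _ => by simp [vol_cell]

lemma int_cells (C : Finset (ℤ × ℤ)) (F : X → ℂ) (hF : ∀ c ∈ C, IntegrableOn F (cl ⁻¹' {c})) :
    ∫ x in cl ⁻¹' (C : Set (ℤ × ℤ)), F x = ∑ c ∈ C, ∫ u in Q, F (u + vec c) := by
  rw [pre_fin, integral_biUnion_finset C (fun c _ => cl_ms _) _ hF]
  · apply Finset.sum_congr rfl
    intro c _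
    exact ((mp_cell c).integral_comp (measurableEmbedding_addRight _) F).symm
  · intro c _ d _ h
    exact Disjoint.preimage _ (disjoint_singleton.2 h)

lemma ch_memLp (b : X) (μ : Measure X) [IsFiniteMeasure μ] (p : ENNReal) :
    MemLp (fun x => ch x b) p μ :=
  MemLp.of_bound (ch_cont b).aestronglyMeasurable 1
    (Filter.Eventually.of_forall fun x => (ch_norm x b).le)

lemma int_ch (C : Finset (ℤ × ℤ)) (b : X) :
    ∫ x in cl ⁻¹' (C : Set (ℤ × ℤ)), ch x b = (∑ c ∈ C, ch (vec c) b) * qh b := by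
  rw [int_cells, Finset.sum_mul]
  · apply Finset.sum_congr rfl
    intro c _
    simp only [ch_addl, qh]
    rw [integral_mul_const, mul_comm]
  · intro c _
    haveI : IsFiniteMeasure (volume.restrict (cl ⁻¹' {c})) := ⟨by simp [vol_cell]⟩
    exact memLp_one_iff_integrable.1 (ch_memLp b _ 1)

end Pool.Agent.H.MP_288ee9_an
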