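import Pool.Agent.H.MP_288ee9_an.A

open MeasureTheory Set
open scoped ComplexConjugate InnerProductSpace

namespace Pool.Agent.H.MP_288ee9_an

lemma win (E0 : Finset (ℤ × ℤ)) (a : ℤ × ℤ) (x : X) :
    (cl ⁻¹' (E0 : Set (ℤ × ℤ))).indicator (fun _ => (1:ℂ)) (x - vec a) =
      if cl x - a ∈ E0 then 1 else 0 := by
  simp only [indicator, mem_preimage, cl_sub, Finset.mem_coe]

lemma orth (E0 : Finset (ℤ × ℤ)) (a a' : ℤ × ℤ) (b b' : X) :
    ∫ x, ((cl ⁻¹' (E0 : Set (ℤ × ℤ))).indicator (fun _ => (1:ℂ)) (x - vec a) * ch x b) *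
      conj ((cl ⁻¹' (E0 : Set (ℤ × ℤ))).indicator (fun _ => (1:ℂ)) (x - vec a') * ch x b') =
    (∑ e ∈ E0.filter (fun e => e + (a - a') ∈ E0), ch (vec (e + a)) (b - b')) * qh (b - b') := by
  have := int_ch ((E0.filter (fun e => e + (a - a') ∈ E0)).image (· + a)) (b - b')
  rw [Finset.sum_image (fun x _ y _ h => add_right_cancel h)] at this
  rw [← this, ← integral_indicator (cl_ms _)]
  apply integral_congr_ae
  filter_upwards with x
  rw [win, win]
  have key : x ∈ cl ⁻¹' (((E0.filter (fun e => e + (a - a') ∈ E0)).image (· + a) :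
      Finset (ℤ × ℤ)) : Set (ℤ × ℤ)) ↔ cl x - a ∈ E0 ∧ cl x - a' ∈ E0 := by
    simp only [mem_preimage, Finset.mem_coe, Finset.mem_image, Finset.mem_filter]
    constructor
    · rintro ⟨e, ⟨h1, h2⟩, h3⟩
      rw [← h3]
      refine ⟨by simpa using h1, ?_⟩
      convert h2 using 1; ring
    · rintro ⟨h1, h2⟩
      refine ⟨cl x - a, ⟨h1, ?_⟩, by ring⟩
      convert h2 using 1; ring
  by_cases h : cl x - a ∈ E0 ∧ cl x - a' ∈ E0
  · rw [indicator_of_mem (key.2 h), if_pos h.1, if_pos h.2, one_mul, one_mul, ch_sub]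
  · rw [indicator_of_notMem (fun c => h (key.1 c))]
    by_cases h1 : cl x - a ∈ E0
    · rw [if_neg (fun c => h ⟨h1, c⟩)]; simp
    · rw [if_neg h1]; simp

lemma complete {ι : Type} [Countable ι] (E0 : Finset (ℤ × ℤ)) (a : ι → ℤ × ℤ) (b : ι → X)
    (hC : ∀ φ : ℤ × ℤ → ℂ, (∀ k, ∑ e ∈ E0, φ (e + a k) * ch (vec (e + a k)) (-b k) = 0) →
      ∀ c, φ c = 0)
    (f : X → ℂ) (hf : MemLp f 2 volume)
    (h : ∀ k n, ∫ x, f x * conj ((cl ⁻¹' (E0 : Set (ℤ × ℤ))).indicator (fun _ => (1:ℂ))
      (x - vec (a k)) * ch x (b k + vec n)) = 0) : f =ᵐ[volume] 0 := by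
  have mq : ∀ c, MemLp (fun u => f (u + vec c)) 2 (volume.restrict Q) := fun c =>
    (hf.restrict (cl ⁻¹' {c})).comp_measurePreserving (mp_cell c)
  have mq2 : ∀ c (β : X), MemLp (fun u => f (u + vec c) * ch (u + vec c) β) 2
      (volume.restrict Q) := fun c β => by
    apply (mq c).of_le
    · exact (mq c).1.mul ((ch_cont β).comp (continuous_add_right _)).aestronglyMeasurable
    · filter_upwards with u
      rw [norm_mul, ch_norm, mul_one]
  have h1 : ∀ k, ∀ᵐ u ∂(volume.restrict Q),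
      ∑ e ∈ E0, f (u + vec (e + a k)) * ch (u + vec (e + a k)) (-b k) = 0 := by
    intro k
    apply compl_Q _ (memLp_finset_sum _ fun e _ => mq2 _ _)
    intro n
    have e1 := h k (-n)
    have e2 := int_cells (E0.image (· + a k)) (fun x => f x * ch x (-b k + vec n)) (fun c _ => by
      have := memLp_one_iff_integrable.1 ((mq2 c (-b k + vec n)).mono_exponent (by norm_num))
      exact ((mp_cell c).integrable_comp_emb (measurableEmbedding_addRight _)).1 this)
    rw [Finset.sum_image (fun x _ y _ h => add_right_cancel h), ← integral_finset_sum _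
      (fun e _ => memLp_one_iff_integrable.1 ((mq2 _ _).mono_exponent (by norm_num)))] at e2
    have e3 : ∫ x in cl ⁻¹' ((E0.image (· + a k) : Finset (ℤ × ℤ)) : Set (ℤ × ℤ)),
        f x * ch x (-b k + vec n) = 0 := by
      rw [← e1, ← integral_indicator (cl_ms _)]
      apply integral_congr_ae
      filter_upwards with x
      rw [win]
      have key : x ∈ cl ⁻¹' ((E0.image (· + a k) : Finset (ℤ × ℤ)) : Set (ℤ × ℤ)) ↔
          cl x - a k ∈ E0 := by
        simp only [mem_preimage, Finset.mem_coe, Finset.mem_image]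
        constructor
        · rintro ⟨e, h1, h3⟩
          rw [← h3]; simpa using h1
        · intro h1
          exact ⟨_, h1, by ring⟩
      by_cases c : cl x - a k ∈ E0
      · rw [indicator_of_mem (key.2 c), if_pos c, one_mul, ch_conj]
        congr 2
        have : vec (-n) = -vec n := by ext i; fin_cases i <;> simp
        rw [this]; abel
      · rw [indicator_of_notMem (fun d => c (key.1 d)), if_neg c]; simp
    rw [e3] at e2
    rw [e2]
    apply integral_congr_ae
    filter_upwards with u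
    rw [Finset.sum_mul]
    apply Finset.sum_congr rfl
    intro e _
    rw [ch_addr, ch_addl u _ (vec n), ch_vec]; ring
  have h2 : ∀ᵐ u ∂(volume.restrict Q), ∀ c, f (u + vec c) = 0 := by
    filter_upwards [ae_all_iff.2 h1] with u hu
    apply hC (fun c => f (u + vec c))
    intro k
    have := hu k
    simp only [ch_addl u] at this
    apply mul_left_cancel₀ (ch_ne u (-b k))
    rw [mul_zero, ← this, Finset.mul_sum]
    apply Finset.sum_congr rfl
    intro e _; ring
  have h3 : ∀ c, ∀ᵐ x ∂(volume.restrict (cl ⁻¹' {c})), f x = 0 := by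
    intro c
    rw [← (mp_cell c).map_eq, (measurableEmbedding_addRight _).ae_map_iff]
    filter_upwards [h2] with u hu using hu c
  have h4 := (ae_restrict_iUnion_iff (μ := volume) (fun c : ℤ × ℤ => cl ⁻¹' {c})
    (fun x => f x = 0)).2 h3
  have : ⋃ c : ℤ × ℤ, cl ⁻¹' {c} = univ := by ext x; simp
  rw [this, Measure.restrict_univ] at h4
  exact h4

lemma nonspec (E0 : Finset (ℤ × ℤ)) (h : ℤ × ℤ) (hh : h ∉ E0) (hne : E0.Nonempty)
    (hd : ∀ x ∈ E0, ∃ y ∈ E0, ∃ y' ∈ E0, y - y' = x - h) :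
    ¬ ∃ B : Set X, (∀ b ∈ B, ∀ b' ∈ B, b ≠ b' →
        ∫ x in cl ⁻¹' (E0 : Set (ℤ × ℤ)), ch x b * conj (ch x b') = 0) ∧
      (∀ f : X → ℂ, MemLp f 2 (volume.restrict (cl ⁻¹' (E0 : Set (ℤ × ℤ)))) →
        (∀ b ∈ B, ∫ x in cl ⁻¹' (E0 : Set (ℤ × ℤ)), f x * conj (ch x b) = 0) →
        f =ᵐ[volume.restrict (cl ⁻¹' (E0 : Set (ℤ × ℤ)))] 0) := by
  classical
  rintro ⟨B, hO, hC⟩
  set μ := volume.restrict (cl ⁻¹' (E0 : Set (ℤ × ℤ))) with hμ
  haveI : IsFiniteMeasure μ := ⟨by simpa [hμ] using vol_fin E0⟩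
  have hN : (0:ℝ) < E0.card := by exact_mod_cast hne.card_pos
  have tot : ∫ x, ch x 0 ∂μ = E0.card := by
    rw [hμ, int_ch, qh_zero]; simp [ch_zero]
  rcases B.eq_empty_or_nonempty with rfl | ⟨b0, hb0⟩
  · have := hC _ (ch_memLp 0 μ 2) (fun b hb => hb.elim)
    rw [integral_congr_ae this] at tot
    simp only [Pi.zero_apply, integral_zero] at tot
    exact hN.ne (by exact_mod_cast tot)
  set s : ℝ := (Real.sqrt E0.card)⁻¹ with hs
  have hs0 : s ≠ 0 := inv_ne_zero (Real.sqrt_pos.2 hN).ne'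
  have hs0' : (s:ℂ) ≠ 0 := by exact_mod_cast hs0
  have hs2 : (s:ℂ) * s * E0.card = 1 := by
    have : s * s * E0.card = 1 := by
      rw [hs, ← mul_inv, Real.mul_self_sqrt hN.le, inv_mul_cancel₀ hN.ne']
    exact_mod_cast this
  let u : X → Lp ℂ 2 μ := fun b => (ch_memLp b μ 2).toLp _
  have hu : ∀ (g : Lp ℂ 2 μ) b, ⟪u b, g⟫_ℂ = ∫ x, g x * conj (ch x b) ∂μ := by
    intro g b
    rw [L2.inner_def]
    apply integral_congr_ae
    filter_upwards [(ch_memLp b μ 2).coeFn_toLp] with x hx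
    simp only [u, hx, RCLike.inner_apply]
  have huu : ∀ b b', ⟪u b, u b'⟫_ℂ = ∫ x, ch x b' * conj (ch x b) ∂μ := by
    intro b b'
    rw [hu]
    apply integral_congr_ae
    filter_upwards [(ch_memLp b' μ 2).coeFn_toLp] with x hx
    simp only [u, hx]
  let v : B → Lp ℂ 2 μ := fun b => (s:ℂ) • u b
  have on : Orthonormal ℂ v := by
    rw [orthonormal_iff_ite]
    intro i j
    simp only [v, inner_smul_left, inner_smul_right, Complex.conj_ofReal, huu]
    split_ifs with e
    · subst e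
      simp only [ch_sub, sub_self, tot]
      linear_combination hs2
    · rw [hO j j.2 i i.2 (fun c => e (Subtype.ext c.symm))]; simp
  have cp : (Submodule.span ℂ (range v))ᗮ = ⊥ := by
    rw [Submodule.eq_bot_iff]
    intro g hg
    have := hC g (Lp.memLp g) (fun b hb => by
      have := hg (v ⟨b, hb⟩) (Submodule.subset_span ⟨_, rfl⟩)
      simp only [v, inner_smul_left, Complex.conj_ofReal, hu] at this
      exact (mul_eq_zero.1 this).resolve_left hs0')
    exact Lp.ext (this.trans (Lp.coeFn_zero ℂ 2 μ).symm)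
  let H := HilbertBasis.mkOfOrthogonalEqBot on cp
  have hH : ∀ i, H i = v i := fun i => congrFun (HilbertBasis.coe_mkOfOrthogonalEqBot on cp) i
  have mF : ∀ y : ℤ × ℤ, MemLp ((cl ⁻¹' {y}).indicator fun x => ch x b0) 2 μ :=
    fun y => (ch_memLp b0 μ 2).indicator (cl_ms _)
  let F : ℤ × ℤ → Lp ℂ 2 μ := fun y => (mF y).toLp _
  have uF : ∀ y ∈ E0, ∀ b, ⟪u b, F y⟫_ℂ = ch (vec y) (b0 - b) * qh (b0 - b) := by
    intro y hy b
    have e := int_ch {y} (b0 - b)
    rw [Finset.sum_singleton, Finset.coe_singleton] at e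
    rw [hu, ← e]
    have sub : cl ⁻¹' {y} ∩ cl ⁻¹' (E0 : Set (ℤ × ℤ)) = cl ⁻¹' {y} :=
      inter_eq_left.2 (preimage_mono (singleton_subset_iff.2 hy))
    rw [← sub, ← Measure.restrict_restrict (cl_ms _), ← hμ, ← integral_indicator (cl_ms {y})]
    apply integral_congr_ae
    filter_upwards [(mF y).coeFn_toLp] with x hx
    simp only [F, hx]
    by_cases c : x ∈ cl ⁻¹' {y}
    · rw [indicator_of_mem c, indicator_of_mem c, ch_sub]
    · rw [indicator_of_notMem c, indicator_of_notMem c, zero_mul]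
  have FF : ∀ y y', y ≠ y' → ⟪F y', F y⟫_ℂ = 0 := by
    intro y y' ne
    rw [L2.inner_def]
    apply integral_eq_zero_of_ae
    filter_upwards [(mF y).coeFn_toLp, (mF y').coeFn_toLp] with x h1 h2
    simp only [F, h1, h2, Pi.zero_apply]
    by_cases c : x ∈ cl ⁻¹' {y}
    · rw [indicator_of_notMem (s := cl ⁻¹' {y'}) (fun d => ne (c.symm.trans d))]; simp
    · rw [indicator_of_notMem c]; simp
  choose! y hy y' hy' hyy using hd
  have S1 : ∀ x ∈ E0, HasSum (fun i : B => (s:ℂ) * s * (ch (vec x) (b0 - i) * qh (b0 - i))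
      * conj (ch (vec h) (b0 - i) * qh (b0 - i))) 0 := by
    intro x hx
    have := H.hasSum_inner_mul_inner (F (y' x)) (F (y x))
    rw [FF _ _ (fun c => hh (by
      have e := hyy x hx
      rw [c, sub_self, eq_comm, sub_eq_zero] at e
      exact e ▸ hx))] at this
    refine this.congr_fun fun i => ?_
    rw [hH, ← inner_conj_symm (F (y' x))]
    simp only [v, inner_smul_left, Complex.conj_ofReal, uF _ (hy x hx), uF _ (hy' x hx), map_mul]
    have e1 : ch (vec x) (b0 - i) * conj (ch (vec h) (b0 - i)) =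
        ch (vec (y x)) (b0 - i) * conj (ch (vec (y' x)) (b0 - i)) := by
      have e := hyy x hx
      have a1 := congrArg Prod.fst e
      have a2 := congrArg Prod.snd e
      simp only [Prod.fst_sub, Prod.snd_sub] at a1 a2
      have a1' : ((y x).1 : ℝ) - (y' x).1 = x.1 - h.1 := by exact_mod_cast a1
      have a2' : ((y x).2 : ℝ) - (y' x).2 = x.2 - h.2 := by exact_mod_cast a2
      simp only [ch_eq, w_conj, ← w_add, vec0, vec1]
      congr 1
      linear_combination -(b0 - i) 0 * a1' - (b0 - i) 1 * a2'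
    linear_combination (s:ℂ) * s * qh (b0 - i) * conj (qh (b0 - i)) * e1
  have S2 := hasSum_sum S1
  simp only [Finset.sum_const_zero, ← Finset.sum_mul, ← Finset.mul_sum] at S2
  have S3 := (hasSum_single (f := fun i : B => (s:ℂ) * s *
      ((∑ x ∈ E0, ch (vec x) (b0 - i)) * qh (b0 - i)) * conj (ch (vec h) (b0 - i) * qh (b0 - i)))
      ⟨b0, hb0⟩ (fun i hi => by
        have := hO b0 hb0 i i.2 (fun c => hi (Subtype.ext c.symm))
        simp only [ch_sub] at this
        rw [hμ, int_ch] at this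
        rw [this]; simp)).unique S2
  simp only [sub_self, ch_zero, qh_zero, Finset.sum_const, nsmul_eq_mul, mul_one, map_one] at S3
  rw [hs2] at S3
  exact one_ne_zero S3

end Pool.Agent.H.MP_288ee9_an
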