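import Pool.Agent.H.MP_288ee9_an.B

open MeasureTheory Set
open scoped ComplexConjugate

namespace Pool.Agent.H.MP_288ee9_an

def E0 : Finset (ℤ × ℤ) :=
  {(0,0), (2,0), (0,2), (2,2), (3,1), (4,1), (3,5), (4,5), (1,3), (5,3), (1,4), (5,4)}

def aa (k : ℤ × ℤ × Fin 6) : ℤ × ℤ := (6 * k.1, k.2.1)

noncomputable def bb (k : ℤ × ℤ × Fin 6) : X :=
  WithLp.toLp 2 ![(k.2.1 : ℝ) / 8, ((k.2.2 : ℕ) : ℝ) / 6]

@[simp] lemma bb0 (k : ℤ × ℤ × Fin 6) : bb k 0 = (k.2.1 : ℝ) / 8 := rfl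
@[simp] lemma bb1 (k : ℤ × ℤ × Fin 6) : bb k 1 = ((k.2.2 : ℕ) : ℝ) / 6 := rfl

lemma w_pow (t : ℝ) (n : ℕ) : w (n * t) = w t ^ n := by
  induction n with
  | zero => simp [w_zero]
  | succ n ih => rw [pow_succ, ← ih, ← w_add]; push_cast; ring_nf

lemma w_one {t : ℝ} (h : w t = 1) : ∃ n : ℤ, t = n := by
  obtain ⟨n, hn⟩ := Complex.exp_eq_one_iff.1 h
  refine ⟨-n, ?_⟩
  have e : (2 * (Real.pi : ℂ) * Complex.I) * ((t:ℂ) + n) = 0 := by linear_combination -hn
  have := (mul_eq_zero.1 e).resolve_left Complex.two_pi_I_ne_zero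
  have e2 : t + n = 0 := by exact_mod_cast this
  push_cast; linarith

lemma w_pair {x y : ℝ} (n : ℤ) (h : y = x + (n + 1 / 2)) : w x + w y = 0 := by
  rw [h, w_add, w_add, w_int, w_half]; ring

lemma E0_sum (F : ℤ × ℤ → ℂ) : ∑ e ∈ E0, F e = F (0,0) + F (2,0) + F (0,2) + F (2,2) + F (3,1)
    + F (4,1) + F (3,5) + F (4,5) + F (1,3) + F (5,3) + F (1,4) + F (5,4) := by
  unfold E0
  rw [Finset.sum_insert (by decide), Finset.sum_insert (by decide), Finset.sum_insert (by decide),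
    Finset.sum_insert (by decide), Finset.sum_insert (by decide), Finset.sum_insert (by decide),
    Finset.sum_insert (by decide), Finset.sum_insert (by decide), Finset.sum_insert (by decide),
    Finset.sum_insert (by decide), Finset.sum_insert (by decide), Finset.sum_singleton]
  ring

lemma hO (k k' : ℤ × ℤ × Fin 6) (hk : k ≠ k') :
    ∑ e ∈ E0.filter (fun e => e + (aa k - aa k') ∈ E0), ch (vec (e + aa k)) (bb k - bb k') = 0 := by
  obtain ⟨α, j, β⟩ := k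
  obtain ⟨α', j', β'⟩ := k'
  rcases (E0.filter (fun e => e + (aa (α, j, β) - aa (α', j', β')) ∈ E0)).eq_empty_or_nonempty
    with h | ⟨e, he⟩
  · rw [h, Finset.sum_empty]
  have bd : ∀ e ∈ E0, 0 ≤ e.1 ∧ e.1 ≤ 5 ∧ 0 ≤ e.2 ∧ e.2 ≤ 5 := by decide
  rw [Finset.mem_filter] at he
  have b1 := bd _ he.1
  have b2 := bd _ he.2
  simp only [aa, Prod.fst_add, Prod.snd_add, Prod.fst_sub, Prod.snd_sub] at b2
  obtain rfl : α = α' := by omega
  obtain ⟨t, rfl⟩ : ∃ t, j = j' + t := ⟨j - j', by ring⟩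
  have e1 : aa (α, j' + t, β) - aa (α, j', β') = (0, t) := by simp [aa]
  rw [e1]
  have t1 : -5 ≤ t := by omega
  have t2 : t ≤ 5 := by omega
  have pr : ∀ (p q : ℤ × ℤ) (n : ℤ), p ≠ q → p.2 = q.2 → 8 * n + 4 = (q.1 - p.1) * t →
      ∑ e ∈ ({p, q} : Finset (ℤ × ℤ)), ch (vec (e + aa (α, j' + t, β)))
        (bb (α, j' + t, β) - bb (α, j', β')) = 0 := by
    intro p q n h1 h2 h3
    rw [Finset.sum_pair h1, ch_eq, ch_eq]
    apply w_pair n
    have h3' : 8 * (n:ℝ) + 4 = (q.1 - p.1) * t := by exact_mod_cast h3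
    simp only [aa, vec0, vec1, PiLp.sub_apply, bb0, bb1, Prod.fst_add, Prod.snd_add, h2]
    push_cast
    linarith
  interval_cases t
  · rw [show E0.filter (fun e => e + (0, -5) ∈ E0) = ∅ by decide, Finset.sum_empty]
  · rw [show E0.filter (fun e => e + (0, -4) ∈ E0) = {(3,5), (4,5)} by decide]
    exact pr _ _ (-1) (by decide) rfl (by decide)
  · rw [show E0.filter (fun e => e + (0, -3) ∈ E0) = ∅ by decide, Finset.sum_empty]
  · rw [show E0.filter (fun e => e + (0, -2) ∈ E0) = {(0,2), (2,2)} by decide]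
    exact pr _ _ (-1) (by decide) rfl (by decide)
  · rw [show E0.filter (fun e => e + (0, -1) ∈ E0) = {(1,4), (5,4)} by decide]
    exact pr _ _ (-1) (by decide) rfl (by decide)
  · rw [show E0.filter (fun e => e + (0, 0) ∈ E0) = E0 by decide]
    have hβ : β ≠ β' := fun c => hk (by simp [c])
    set m : ℝ := ((β:ℕ):ℝ) / 6 - ((β':ℕ):ℝ) / 6 with hm
    have z1 : w m ≠ 1 := by
      intro c
      obtain ⟨n, hn⟩ := w_one c
      have : ((β:ℕ):ℝ) - ((β':ℕ):ℝ) = 6 * n := by linarith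
      have : ((β:ℕ):ℤ) - ((β':ℕ):ℤ) = 6 * n := by exact_mod_cast this
      have := β.2; have := β'.2
      exact hβ (Fin.ext (by omega))
    have z6 : w m ^ 6 = 1 := by
      rw [← w_pow, ← w_int (((β:ℕ):ℤ) - ((β':ℕ):ℤ))]; congr 1; push_cast; rw [hm]; ring
    have z0 : 1 + w m + w m ^ 2 + w m ^ 3 + w m ^ 4 + w m ^ 5 = 0 := by
      apply mul_left_cancel₀ (sub_ne_zero.2 z1)
      linear_combination z6
    have tm : ∀ (i : ℤ) (r : ℕ), ch (vec ((i, (r:ℤ)) + aa (α, j' + 0, β)))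
        (bb (α, j' + 0, β) - bb (α, j', β')) = w (j' * m) * w m ^ r := by
      intro i r
      rw [ch_eq, ← w_pow, ← w_add]
      simp only [aa, vec0, vec1, PiLp.sub_apply, bb0, bb1, Prod.fst_add, Prod.snd_add, ← hm]
      push_cast
      ring_nf
    rw [E0_sum]
    have := tm 0 0; have := tm 2 0; have := tm 0 2; have := tm 2 2; have := tm 3 1; have := tm 4 1
    have := tm 3 5; have := tm 4 5; have := tm 1 3; have := tm 5 3; have := tm 1 4; have := tm 5 4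
    simp only [Nat.cast_ofNat, Nat.cast_zero, Nat.cast_one] at *
    simp only [*]
    linear_combination 2 * w (j' * m) * z0
  · rw [show E0.filter (fun e => e + (0, 1) ∈ E0) = {(1,3), (5,3)} by decide]
    exact pr _ _ 0 (by decide) rfl (by decide)
  · rw [show E0.filter (fun e => e + (0, 2) ∈ E0) = {(0,0), (2,0)} by decide]
    exact pr _ _ 0 (by decide) rfl (by decide)
  · rw [show E0.filter (fun e => e + (0, 3) ∈ E0) = ∅ by decide, Finset.sum_empty]
  · rw [show E0.filter (fun e => e + (0, 4) ∈ E0) = {(3,1), (4,1)} by decide]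
    exact pr _ _ 0 (by decide) rfl (by decide)
  · rw [show E0.filter (fun e => e + (0, 5) ∈ E0) = ∅ by decide, Finset.sum_empty]

lemma hC (φ : ℤ × ℤ → ℂ)
    (h : ∀ k, ∑ e ∈ E0, φ (e + aa k) * ch (vec (e + aa k)) (-bb k) = 0) (c : ℤ × ℤ) : φ c = 0 := by
  let T : ℤ → ℤ → ℤ → ℤ → ℂ := fun α j i r =>
    φ (i + 6 * α, r + j) * w (-((i + 6 * α) * j / 8))
  have inj : Function.Injective fun r : Fin 6 => w (-((r:ℕ):ℝ) / 6) := by
    intro r s e
    simp only at e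
    have : w (((s:ℕ):ℝ) / 6 + -((r:ℕ):ℝ) / 6) = 1 := by
      rw [w_add, e, ← w_add, ← w_zero]; congr 1; ring
    obtain ⟨n, hn⟩ := w_one this
    have : ((s:ℕ):ℝ) - ((r:ℕ):ℝ) = 6 * n := by linarith
    have : ((s:ℕ):ℤ) - ((r:ℕ):ℤ) = 6 * n := by exact_mod_cast this
    have := r.2; have := s.2
    exact Fin.ext (by omega)
  have rows : ∀ α j, ![T α j 0 0 + T α j 2 0, T α j 3 1 + T α j 4 1, T α j 0 2 + T α j 2 2,
      T α j 1 3 + T α j 5 3, T α j 1 4 + T α j 5 4, T α j 3 5 + T α j 4 5] = 0 := by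
    intro α j
    apply Matrix.eq_zero_of_forall_pow_sum_mul_pow_eq_zero inj
    intro β
    have e := h (α, j, β)
    have tm : ∀ (i : ℤ) (r : ℕ), φ ((i, (r:ℤ)) + aa (α, j, β)) *
        ch (vec ((i, (r:ℤ)) + aa (α, j, β))) (-bb (α, j, β)) =
        w (-(j * ((β:ℕ):ℝ) / 6)) * (T α j i r * w (-(r:ℝ) / 6) ^ (β:ℕ)) := by
      intro i r
      simp only [T]
      rw [ch_eq, ← w_pow, mul_assoc, ← w_add, mul_left_comm, ← w_add]
      simp only [aa, vec0, vec1, PiLp.neg_apply, bb0, bb1, Prod.fst_add, Prod.snd_add,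
        Prod.mk_add_mk]
      push_cast
      ring_nf
    rw [E0_sum] at e
    have := tm 0 0; have := tm 2 0; have := tm 0 2; have := tm 2 2; have := tm 3 1; have := tm 4 1
    have := tm 3 5; have := tm 4 5; have := tm 1 3; have := tm 5 3; have := tm 1 4; have := tm 5 4
    simp only [Nat.cast_ofNat, Nat.cast_zero, Nat.cast_one] at *
    simp only [*] at e
    apply mul_left_cancel₀ (w_ne (-(j * ((β:ℕ):ℝ) / 6)))
    simp only [Fin.sum_univ_six, Matrix.cons_val]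
    have v0 : (((0 : Fin 6) : ℕ) : ℝ) = 0 := by simp
    have v1 : (((1 : Fin 6) : ℕ) : ℝ) = 1 := by simp
    have v2 : (((2 : Fin 6) : ℕ) : ℝ) = 2 := by simp
    have v3 : (((3 : Fin 6) : ℕ) : ℝ) = 3 := by simp
    have v4 : (((4 : Fin 6) : ℕ) : ℝ) = 4 := by simp
    have v5 : (((5 : Fin 6) : ℕ) : ℝ) = 5 := by simp
    rw [v0, v1, v2, v3, v4, v5]
    linear_combination e
  have blk : ∀ (α m i i' r r' n : ℤ), T α (m - r) i r + T α (m - r) i' r = 0 →
      T α (m - r') i r' + T α (m - r') i' r' = 0 → 8 * n + 4 = (i' - i) * (r' - r) →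
      φ (i + 6 * α, m) = 0 ∧ φ (i' + 6 * α, m) = 0 := by
    intro α m i i' r r' n h1 h2 h3
    simp only [T, add_sub_cancel] at h1 h2
    have h3' : 8 * (n:ℝ) + 4 = (i' - i) * (r' - r) := by exact_mod_cast h3
    have p := w_pair (x := -((i + 6 * α) * ((m - r' : ℤ) : ℝ) / 8) + -((i' + 6 * α) * ((m - r : ℤ) : ℝ) / 8))
      (y := -((i + 6 * α) * ((m - r : ℤ) : ℝ) / 8) + -((i' + 6 * α) * ((m - r' : ℤ) : ℝ) / 8)) n
      (by push_cast; linarith)
    rw [w_add, w_add] at p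
    have n1 := w_ne (-((i + 6 * α) * ((m - r : ℤ) : ℝ) / 8))
    have n2 := w_ne (-((i' + 6 * α) * ((m - r' : ℤ) : ℝ) / 8))
    have n3 := w_ne (-((i' + 6 * α) * ((m - r : ℤ) : ℝ) / 8))
    set A := w (-((i + 6 * α) * ((m - r : ℤ) : ℝ) / 8))
    set B := w (-((i' + 6 * α) * ((m - r : ℤ) : ℝ) / 8))
    set C := w (-((i + 6 * α) * ((m - r' : ℤ) : ℝ) / 8))
    set D := w (-((i' + 6 * α) * ((m - r' : ℤ) : ℝ) / 8))
    have z : φ (i + 6 * α, m) = 0 := by
      apply mul_left_cancel₀ (mul_ne_zero two_ne_zero (mul_ne_zero n1 n2))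
      linear_combination D * h1 - B * h2 + φ (i + 6 * α, m) * p
    refine ⟨z, ?_⟩
    rw [z, zero_mul, zero_add] at h1
    exact (mul_eq_zero.1 h1).resolve_right n3
  obtain ⟨x, m⟩ := c
  have r0 := fun α j => congrFun (rows α j) 0
  have r1 := fun α j => congrFun (rows α j) 1
  have r2 := fun α j => congrFun (rows α j) 2
  have r3 := fun α j => congrFun (rows α j) 3
  have r4 := fun α j => congrFun (rows α j) 4
  have r5 := fun α j => congrFun (rows α j) 5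
  have b1 := blk (x / 6) m 0 2 0 2 0 (r0 _ _) (r2 _ _) (by norm_num)
  have b2 := blk (x / 6) m 3 4 1 5 0 (r1 _ _) (r5 _ _) (by norm_num)
  have b3 := blk (x / 6) m 1 5 3 4 0 (r3 _ _) (r4 _ _) (by norm_num)
  have hx : x = 0 + 6 * (x / 6) ∨ x = 1 + 6 * (x / 6) ∨ x = 2 + 6 * (x / 6) ∨ x = 3 + 6 * (x / 6)
      ∨ x = 4 + 6 * (x / 6) ∨ x = 5 + 6 * (x / 6) := by omega
  rcases hx with e | e | e | e | e | e <;> rw [e]
  exacts [b1.1, b3.1, b1.2, b2.1, b2.2, b3.2]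

theorem main :
    ∃ (d : ℕ) (E : Set (EuclideanSpace ℝ (Fin d))),
      0 < d ∧ MeasurableSet E ∧ volume E < ⊤ ∧
      (¬ ∃ B : Set (EuclideanSpace ℝ (Fin d)),
          (∀ b ∈ B, ∀ b' ∈ B, b ≠ b' →
            ∫ x in E, Complex.exp (-2 * (Real.pi : ℂ) * Complex.I * ((inner ℝ x b : ℝ) : ℂ)) *
              starRingEnd ℂ (Complex.exp (-2 * (Real.pi : ℂ) * Complex.I * ((inner ℝ x b' : ℝ) : ℂ))) = 0) ∧
          (∀ f : EuclideanSpace ℝ (Fin d) → ℂ, MemLp f 2 (volume.restrict E) →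
            (∀ b ∈ B, ∫ x in E, f x *
              starRingEnd ℂ (Complex.exp (-2 * (Real.pi : ℂ) * Complex.I * ((inner ℝ x b : ℝ) : ℂ))) = 0) →
            f =ᵐ[volume.restrict E] 0)) ∧
      ∃ S : Set (EuclideanSpace ℝ (Fin d) × EuclideanSpace ℝ (Fin d)),
        (∀ p ∈ S, ∀ q ∈ S, p ≠ q →
          ∫ x, (E.indicator (fun _ => (1 : ℂ)) (x - p.1) *
                Complex.exp (-2 * (Real.pi : ℂ) * Complex.I * ((inner ℝ x p.2 : ℝ) : ℂ))) *
              starRingEnd ℂ (E.indicator (fun _ => (1 : ℂ)) (x - q.1) *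
                Complex.exp (-2 * (Real.pi : ℂ) * Complex.I * ((inner ℝ x q.2 : ℝ) : ℂ))) = 0) ∧
        (∀ f : EuclideanSpace ℝ (Fin d) → ℂ, MemLp f 2 volume →
          (∀ p ∈ S, ∫ x, f x *
              starRingEnd ℂ (E.indicator (fun _ => (1 : ℂ)) (x - p.1) *
                Complex.exp (-2 * (Real.pi : ℂ) * Complex.I * ((inner ℝ x p.2 : ℝ) : ℂ))) = 0) →
          f =ᵐ[volume] 0) := by
  refine ⟨2, cl ⁻¹' (E0 : Set (ℤ × ℤ)), by norm_num, cl_ms _, vol_fin _,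
    nonspec E0 (3, 3) (by decide) (by decide) (by decide),
    range (fun p : (ℤ × ℤ × Fin 6) × (ℤ × ℤ) => (vec (aa p.1), bb p.1 + vec p.2)), ?_, ?_⟩
  · rintro _ ⟨⟨k, n⟩, rfl⟩ _ ⟨⟨k', n'⟩, rfl⟩ ne
    refine (orth E0 (aa k) (aa k') (bb k + vec n) (bb k' + vec n')).trans ?_
    have e : bb k + vec n - (bb k' + vec n') = bb k - bb k' + vec (n - n') := by
      rw [vec_sub]; abel
    rw [e]
    by_cases hk : k = k'
    · subst hk
      rw [sub_self (bb k), zero_add, qh_vec _ (sub_ne_zero.2 fun c => ne (by rw [c])), mul_zero]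
    · simp only [ch_addr, ch_vec, mul_one]
      rw [hO k k' hk, zero_mul]
  · intro f hf h
    apply complete E0 aa bb hC f hf
    intro k n
    exact h (vec (aa k), bb k + vec n) ⟨(k, n), rfl⟩

end Pool.Agent.H.MP_288ee9_an
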